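import Pool.Agent.helper99.WN.SpecB

/-!
# Row `wn:DI`
-/

set_option autoImplicit false

open Classical

namespace Pool.Agent.WN

theorem DI_back {V : Type} {k : ℕ} {R : V → Lt k → V → Prop} (hD : Det R) (hS : Sym R)
    {v v' x y : V} {a : Lt k} (h1 : R x a v) (h2 : R y a v') (h : v = v') : x = y := by
  subst h
  exact hD v (iv a) x y (hS _ _ _ h1) (hS _ _ _ h2)

/-- two bi-infinite runs which agree at one time are equal -/
theorem DI_uni {V : Type} {k : ℕ} {R : V → Lt k → V → Prop} {W : ℤ → Lt k} (hD : Det R)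
    (hS : Sym R) {Y Y' : ℤ → V} (h1 : ∀ u, R (Y u) (W u) (Y (u + 1)))
    (h2 : ∀ u, R (Y' u) (W u) (Y' (u + 1))) {u0 : ℤ} (h0 : Y u0 = Y' u0) (u : ℤ) :
    Y u = Y' u := by
  have key : ∀ q : ℤ, Y (u0 + q) = Y' (u0 + q) := by
    intro q
    induction q using Int.induction_on with
    | zero => simpa using h0
    | succ i ih =>
      have a1 := h1 (u0 + i)
      have a2 := h2 (u0 + i)
      rw [← ih] at a2
      have := hD _ _ _ _ a1 a2
      rw [← add_assoc]; exact this
    | pred i ih =>
      have a1 := h1 (u0 + (-(i : ℤ) - 1))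
      have a2 := h2 (u0 + (-(i : ℤ) - 1))
      have e : u0 + (-(i : ℤ) - 1) + 1 = u0 + -(i : ℤ) := by ring
      rw [e] at a1 a2
      exact DI_back hD hS a1 a2 ih
  have := key (u - u0)
  rwa [add_sub_cancel] at this

theorem DI : DI_stmt := by
  intro V k R W N n hW hD hS s z hrun hncl
  by_cases hdis : ∀ t t', s ≤ t → t < t' → t' ≤ s + ((n : ℤ) - 3) * N → (N : ℤ) ∣ t' - t →
      z t ≠ z t'
  · exact Or.inl hdis
  right
  push Not at hdis
  obtain ⟨t, t', hst, htt, hte, hNd, hz⟩ := hdis
  have hN : (0 : ℤ) < N := by exact_mod_cast hW.pos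
  -- backwards
  have hback : ∀ q : ℕ, (q : ℤ) ≤ t - s → z (t - q) = z (t' - q) := by
    intro q
    induction q with
    | zero => intro _; simpa using hz
    | succ q ih =>
      intro hq
      push_cast at hq
      have ih' := ih (by omega)
      have a1 := hrun (t - (q + 1)) (by omega) (by omega)
      have a2 := hrun (t' - (q + 1)) (by omega) (by omega)
      have e1 : t - ((q : ℤ) + 1) + 1 = t - q := by ring
      have e2 : t' - ((q : ℤ) + 1) + 1 = t' - q := by ring
      have e3 : W (t' - (q + 1)) = W (t - (q + 1)) := by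
        apply Wd.per_dvd hW
        have : t' - ((q : ℤ) + 1) - (t - (q + 1)) = t' - t := by ring
        rw [this]; exact hNd
      rw [e1] at a1
      rw [e2, e3] at a2
      push_cast
      exact DI_back hD hS a1 a2 ih'
  obtain ⟨d, hd⟩ : ∃ d : ℤ, d = t' - t := ⟨_, rfl⟩
  have hd0 : 0 < d := by omega
  have hNd' : (N : ℤ) ∣ d := by rw [hd]; exact hNd
  have hzs : z s = z (s + d) := by
    have := hback (t - s).toNat (by rw [Int.toNat_of_nonneg (by omega)])
    rw [Int.toNat_of_nonneg (by omega)] at this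
    rw [show s = t - (t - s) by ring, show t - (t - s) + d = t' - (t - s) by rw [hd]; ring]
    exact this
  have hend : s + d ≤ s + ((n : ℤ) - 3) * N := by
    have : s + d ≤ t' := by omega
    omega
  obtain ⟨Z, hZ⟩ : ∃ Z : ℤ → V, ∀ u, Z u = z (s + (u - s) % d) := ⟨_, fun u => rfl⟩
  have hZrun : ∀ u, R (Z u) (W u) (Z (u + 1)) := by
    intro u
    have p1 := Int.emod_nonneg (u - s) hd0.ne'
    have p2 := Int.emod_lt_of_pos (u - s) hd0
    have p3 := Int.emod_add_mul_ediv (u - s) d
    have hWu : W u = W (s + (u - s) % d) := by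
      apply Wd.per_dvd hW
      have : u - (s + (u - s) % d) = d * ((u - s) / d) := by linarith
      rw [this]
      exact hNd'.mul_right _
    have a1 := hrun (s + (u - s) % d) (by omega) (by omega)
    rw [hZ, hZ, hWu]
    rcases lt_or_eq_of_le (show (u - s) % d + 1 ≤ d by omega) with h | h
    · have : (u + 1 - s) % d = (u - s) % d + 1 := by
        have e : u + 1 - s = ((u - s) % d + 1) + d * ((u - s) / d) := by linarith
        rw [e, Int.add_mul_emod_self_left]
        exact Int.emod_eq_of_lt (by omega) h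
      rw [this, ← add_assoc]
      exact a1
    · have : (u + 1 - s) % d = 0 := by
        have e : u + 1 - s = d * ((u - s) / d + 1) := by linarith
        rw [e]; exact Int.mul_emod_right _ _
      rw [this, add_zero, hzs]
      have e : s + (u - s) % d + 1 = s + d := by omega
      rw [e] at a1
      exact a1
  have hZd : ∀ u, Z (u + d) = Z u := by
    intro u
    rw [hZ, hZ]
    congr 2
    have e : u + d - s = (u - s) + d * 1 := by ring
    rw [e, Int.add_mul_emod_self_left]
  -- periods
  have hP : ∀ q u0 : ℤ, Z (u0 + q * N) = Z u0 → ∀ u, Z (u + q * N) = Z u := by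
    intro q u0 h u
    refine DI_uni (Y := fun u => Z (u + q * N)) (Y' := Z) (W := W) hD hS ?_ hZrun h u
    intro v
    have := hZrun (v + q * N)
    rw [Wd.per_mul hW] at this
    show R (Z (v + q * N)) (W v) (Z (v + 1 + q * N))
    rw [show v + 1 + q * N = v + q * N + 1 by ring]
    exact this
  have hneg : ∀ q : ℤ, (∀ u, Z (u + q * N) = Z u) → ∀ u, Z (u + (-q) * N) = Z u := by
    intro q h u
    have := h (u + (-q) * N)
    rw [show u + -q * N + q * N = u by ring] at this
    exact this.symm
  have hadd : ∀ q q' : ℤ, (∀ u, Z (u + q * N) = Z u) → (∀ u, Z (u + q' * N) = Z u) →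
      ∀ u, Z (u + (q + q') * N) = Z u := by
    intro q q' h h' u
    rw [show u + (q + q') * N = (u + q * N) + q' * N by ring, h', h]
  have hmul : ∀ q c : ℤ, (∀ u, Z (u + q * N) = Z u) → ∀ u, Z (u + (q * c) * N) = Z u := by
    intro q c h
    induction c using Int.induction_on with
    | zero => intro u; simp
    | succ i ih =>
      rw [mul_add, mul_one]
      exact hadd _ _ ih h
    | pred i ih =>
      rw [mul_sub, mul_one, sub_eq_add_neg]
      exact hadd _ _ ih (hneg _ h)
  have hex : ∃ m : ℕ, 0 < m ∧ ∀ u, Z (u + (m : ℤ) * N) = Z u := by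
    obtain ⟨c, hc⟩ := hNd'
    have hc0 : 0 < c := by
      by_contra hcon
      push Not at hcon
      nlinarith
    refine ⟨c.toNat, by omega, fun u => ?_⟩
    rw [Int.toNat_of_nonneg hc0.le, mul_comm c, ← hc]
    exact hZd u
  obtain ⟨m, ⟨hm0, hmP⟩, hmin⟩ : ∃ m : ℕ, (0 < m ∧ ∀ u, Z (u + (m : ℤ) * N) = Z u) ∧
      ∀ m' : ℕ, m' < m → ¬ (0 < m' ∧ ∀ u, Z (u + (m' : ℤ) * N) = Z u) :=
    ⟨Nat.find hex, Nat.find_spec hex, fun m' h => Nat.find_min hex h⟩
  have hdvd : ∀ q : ℤ, (∀ u, Z (u + q * N) = Z u) → (m : ℤ) ∣ q := by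
    intro q hq
    have hm' : (0 : ℤ) < m := by exact_mod_cast hm0
    have p1 := Int.emod_nonneg q hm'.ne'
    have p2 := Int.emod_lt_of_pos q hm'
    have p3 := Int.emod_add_mul_ediv q m
    have hr : ∀ u, Z (u + (q % m) * N) = Z u := by
      have e : q % m = q + (m : ℤ) * (-(q / m)) := by linarith
      rw [e]
      exact hadd _ _ hq (hmul _ _ hmP)
    by_contra hcon
    have hne : q % m ≠ 0 := fun h => hcon (Int.dvd_of_emod_eq_zero h)
    apply hmin (q % m).toNat (by omega)
    refine ⟨by omega, ?_⟩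
    rw [Int.toNat_of_nonneg p1]
    exact hr
  refine ⟨m, Z, ?_, hZrun, ?_⟩
  · by_contra hcon
    have hm1 : m = 1 := by omega
    subst hm1
    apply hncl
    refine ⟨Z, fun u _ _ => hZrun u, ?_, ?_⟩
    · rw [hZ]; simp
    · have := hmul 1 n (by simpa using hmP) s
      rw [one_mul] at this
      rw [this, hZ]; simp
  · intro a b
    constructor
    · rintro ⟨⟨c, hc⟩, hab⟩
      have h1 : Z (a + c * N) = Z a := by
        rw [show a + c * N = b by linarith, hab]
      obtain ⟨c', hc'⟩ := hdvd c (hP c a h1)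
      exact ⟨c', by rw [hc, hc']; ring⟩
    · rintro ⟨c, hc⟩
      refine ⟨⟨m * c, by rw [hc]; ring⟩, ?_⟩
      have := hmul m c hmP a
      rw [← this]
      congr 1
      linarith

end Pool.Agent.WN
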