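import Pool.Agent.helper99.WN.SpecB

/-!
# Row `wn:RA`
-/

set_option autoImplicit false

open Classical

namespace Pool.Agent.WN

/-- the second label in the direction of the run -/
noncomputable def RA_vv {V : Type} {k : ℕ} (W : ℤ → Lt k) (z : ℤ → V) (c : V × Fin k × V → Fr k)
    (t : ℤ) : Fr k := if (W t).2 = true then c (ed W z t) else (c (ed W z t))⁻¹

theorem RA_step {V : Type} {k : ℕ} {W : ℤ → Lt k} {z : ℤ → V} (c : V × Fin k × V → Fr k)
    {F : Gr V k} {t : ℤ} (h : ed W z t ∈ F) :
    PL (lfc F c) (z t) (z (t + 1)) (lt (W t), RA_vv W z c t) := by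
  rcases hW : W t with ⟨x, b⟩
  cases b
  · have he : ed W z t = (z (t + 1), x, z t) := by simp [ed, hW]
    have hv : RA_vv W z c t = (c (ed W z t))⁻¹ := by simp [RA_vv, hW]
    rw [hv, lt_false]
    have h1 : (z (t + 1), (FreeGroup.of x, c (ed W z t)), z t) ∈ lfc F c :=
      ⟨ed W z t, h, by rw [he]⟩
    exact PL.edge' h1
  · have he : ed W z t = (z t, x, z (t + 1)) := by simp [ed, hW]
    have hv : RA_vv W z c t = c (ed W z t) := by simp [RA_vv, hW]
    rw [hv, lt_true]
    have h1 : (z t, (FreeGroup.of x, c (ed W z t)), z (t + 1)) ∈ lfc F c :=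
      ⟨ed W z t, h, by rw [he]⟩
    exact PL.edge h1

theorem RA_vv_ne {V : Type} {k : ℕ} {W : ℤ → Lt k} {z : ℤ → V} {s e t0 : ℤ} {u : Fr k} {t : ℤ}
    (h : ed W z t ≠ ed W z t0) : RA_vv W z (cc W z s e t0 u) t = lt (W t) := by
  unfold RA_vv cc
  rw [if_neg h, ed_letter]
  rcases hW : W t with ⟨x, b⟩
  cases b
  · simp [lt_false]
  · simp [lt_true]

theorem RA_vv_eq {V : Type} {k : ℕ} {W : ℤ → Lt k} {z : ℤ → V} {s e t0 : ℤ} {u : Fr k} :
    RA_vv W z (cc W z s e t0 u) t0 = X0 W s e t0 u := by
  unfold RA_vv cc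
  rw [if_pos rfl]
  split_ifs
  · rfl
  · rw [inv_inv]

theorem RA_run {V : Type} {k : ℕ} {W : ℤ → Lt k} {z : ℤ → V} {s e t0 : ℤ} {u : Fr k}
    {F : Gr V k} {t : ℤ} (q : ℕ)
    (h : ∀ t', t ≤ t' → t' < t + q → ed W z t' ∈ F ∧ ed W z t' ≠ ed W z t0) :
    PL (lfc F (cc W z s e t0 u)) (z t) (z (t + q)) (wd W t q, wd W t q) := by
  induction q with
  | zero => simp only [Nat.cast_zero, add_zero, wd_zero]; exact PL.nil _
  | succ q ih =>
    have h1 := ih (fun t' a b => h t' a (by push_cast; omega))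
    obtain ⟨h2, h3⟩ := h (t + q) (by omega) (by push_cast; omega)
    have h4 := RA_step (cc W z s e t0 u) h2
    rw [RA_vv_ne h3] at h4
    have h5 := h1.trans h4
    rw [wd_succ, Nat.cast_succ, ← add_assoc]
    exact h5

/-- the gauge -/
noncomputable def RA_g {V : Type} {k : ℕ} (W : ℤ → Lt k) (z : ℤ → V) (t0 : ℤ) (q : ℕ) (v : V) :
    Fr k :=
  if h : ∃ t : ℤ, t0 < t ∧ t ≤ t0 + q ∧ z t = v then
    wd W h.choose (t0 + q + 1 - h.choose).toNat else 1

theorem RA (hIN : IN_stmt) : RA_stmt := by
  intro V k E W s e z t0 q u hS a b ha hb p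
  obtain ⟨-, -, hE1, huniq⟩ := hIN V k E W s e z t0 q hS
  have hq := hS.pos
  have hhs := hS.hs
  have hhe := hS.he
  -- edges of the run
  have hedE : ∀ t, s ≤ t → t < e → ed W z t ∈ E := fun t h1 h2 => ed_mem (hS.run t h1 h2)
  have hed1 : ∀ t, s ≤ t → t < e → (t < t0 ∨ t0 + q < t) → ed W z t ∈ E1 E W z t0 q := by
    intro t h1 h2 h3
    unfold E1
    rw [Finset.mem_sdiff]
    refine ⟨hedE t h1 h2, fun h => ?_⟩
    obtain ⟨t1, ht1, h4⟩ := Finset.mem_image.1 h
    rw [Finset.mem_Icc] at ht1
    have := hS.single t1 ht1.1 ht1.2 t h1 h2 h4.symm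
    omega
  have hed0 : ∀ t, s ≤ t → t < e → t ≠ t0 → ed W z t ≠ ed W z t0 := by
    intro t h1 h2 h3 h4
    exact h3 (hS.single t0 le_rfl (by omega) t h1 h2 h4)
  have eA : (((t0 - s).toNat : ℕ) : ℤ) = t0 - s := Int.toNat_of_nonneg (by omega)
  have eB : (((e - t0 - 1).toNat : ℕ) : ℤ) = e - t0 - 1 := Int.toNat_of_nonneg (by omega)
  have eB' : (((e - t0 - q - 1).toNat : ℕ) : ℤ) = e - t0 - q - 1 := Int.toNat_of_nonneg (by omega)
  have eP : (e - s).toNat = (t0 - s).toNat + (1 + (e - t0 - 1).toNat) := by omega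
  have eAB : (e - t0 - 1).toNat = q + (e - t0 - q - 1).toNat := by omega
  have hP : wd W s (e - s).toNat =
      wd W s (t0 - s).toNat * (lt (W t0) * wd W (t0 + 1) (e - t0 - 1).toNat) := by
    rw [eP, wd_add, wd_add, wd_one, eA]
    rw [show s + (t0 - s) = t0 by ring]
    push_cast
    rfl
  have hAB : wd W (t0 + 1) (e - t0 - 1).toNat =
      wd W (t0 + 1) q * wd W (t0 + q + 1) (e - t0 - q - 1).toNat := by
    rw [eAB, wd_add]
    rw [show t0 + 1 + (q : ℤ) = t0 + q + 1 by ring]
  constructor
  · intro h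
    -- the gauge
    have hg1 : ∀ t, t0 < t → t ≤ t0 + q →
        RA_g W z t0 q (z t) = wd W t (t0 + q + 1 - t).toNat := by
      intro t h1 h2
      have hex : ∃ t' : ℤ, t0 < t' ∧ t' ≤ t0 + q ∧ z t' = z t := ⟨t, h1, h2, rfl⟩
      unfold RA_g
      rw [dif_pos hex]
      obtain ⟨c1, c2, c3⟩ := hex.choose_spec
      have : hex.choose = t :=
        (huniq t hex.choose h1 h2 (by omega) (by omega) c3)
      rw [this]
    have hII : ∀ v, v ∈ II z t0 q ↔ ∃ t : ℤ, t0 < t ∧ t ≤ t0 + q ∧ z t = v := by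
      intro v
      unfold II
      rw [Finset.mem_image]
      constructor
      · rintro ⟨t, ht, h1⟩
        rw [Finset.mem_Ioc] at ht
        exact ⟨t, ht.1, ht.2, h1⟩
      · rintro ⟨t, h1, h2, h3⟩
        exact ⟨t, Finset.mem_Ioc.2 ⟨h1, h2⟩, h3⟩
    have hg0 : ∀ v, v ∉ II z t0 q → RA_g W z t0 q v = 1 := by
      intro v hv
      unfold RA_g
      rw [dif_neg (fun h => hv ((hII v).2 h))]
    have hout : ∀ t, s ≤ t → t ≤ e → (t ≤ t0 ∨ t0 + q < t) → z t ∉ II z t0 q := by
      intro t h1 h2 h3 h4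
      obtain ⟨t1, c1, c2, c3⟩ := (hII _).1 h4
      have := huniq t1 t c1 c2 h1 h2 c3.symm
      omega
    have hin : ∀ t, t0 < t → t ≤ t0 + q → z t ∈ II z t0 q := fun t h1 h2 =>
      (hII _).2 ⟨t, h1, h2, rfl⟩
    set f : V → V := fun v => if v ∈ II z t0 q then z (t0 + q + 1) else v with hf
    set γ : V → Fr k × Fr k := fun v => (RA_g W z t0 q v, RA_g W z t0 q v) with hγ
    set c := cc W z s e t0 u with hc
    set S' := lfc (E1 E W z t0 q) c ∪ {(z e, ((wd W s (e - s).toNat)⁻¹, u), z s)} with hS'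
    have hfo : ∀ v, v ∉ II z t0 q → f v = v := fun v hv => if_neg hv
    have hfi : ∀ v, v ∈ II z t0 q → f v = z (t0 + q + 1) := fun v hv => if_pos hv
    have hγo : ∀ v, v ∉ II z t0 q → γ v = 1 := fun v hv => by
      show (RA_g W z t0 q v, RA_g W z t0 q v) = 1
      rw [hg0 v hv]; rfl
    have mono : ∀ {x y : V} {g : Fr k × Fr k}, PL (lfc (E1 E W z t0 q) c) x y g →
        PL S' x y g := fun h => PL.mono Set.subset_union_left h
    -- the path for the first edge
    have p1 : PL S' (z s) (z t0) (wd W s (t0 - s).toNat, wd W s (t0 - s).toNat) := by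
      apply mono
      have := RA_run (F := E1 E W z t0 q) (W := W) (z := z) (s := s) (e := e) (t0 := t0) (u := u)
        (t := s) (t0 - s).toNat (by
          intro t' h1 h2
          rw [eA] at h2
          exact ⟨hed1 t' h1 (by omega) (by omega), hed0 t' h1 (by omega) (by omega)⟩)
      rw [eA, show s + (t0 - s) = t0 by ring] at this
      exact this
    have p2 : PL S' (z (t0 + q + 1)) (z e) (wd W (t0 + q + 1) (e - t0 - q - 1).toNat,
        wd W (t0 + q + 1) (e - t0 - q - 1).toNat) := by
      apply mono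
      have := RA_run (F := E1 E W z t0 q) (W := W) (z := z) (s := s) (e := e) (t0 := t0) (u := u)
        (t := t0 + q + 1) (e - t0 - q - 1).toNat (by
          intro t' h1 h2
          rw [eB'] at h2
          exact ⟨hed1 t' (by omega) (by omega) (by omega),
            hed0 t' (by omega) (by omega) (by omega)⟩)
      rw [eB', show t0 + q + 1 + (e - t0 - q - 1) = e by ring] at this
      exact this
    have p3 : PL S' (z e) (z s) ((wd W s (e - s).toNat)⁻¹, u) :=
      PL.edge (Set.mem_union_right _ rfl)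
    have p4 : PL S' (z t0) (z (t0 + q + 1)) (lt (W t0) * wd W (t0 + 1) q,
        X0 W s e t0 u * wd W (t0 + 1) q) := by
      have := (p1.symm.trans p3.symm).trans p2.symm
      have e1 : (lt (W t0) * wd W (t0 + 1) q, X0 W s e t0 u * wd W (t0 + 1) q) =
          (wd W s (t0 - s).toNat, wd W s (t0 - s).toNat)⁻¹ *
          ((wd W s (e - s).toNat)⁻¹, u)⁻¹ * (wd W (t0 + q + 1) (e - t0 - q - 1).toNat,
        wd W (t0 + q + 1) (e - t0 - q - 1).toNat)⁻¹ := by
        apply Prod.ext
        · simp only [Prod.fst_mul, Prod.fst_inv]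
          rw [hP, hAB]; group
        · simp only [Prod.snd_mul, Prod.snd_inv]
          unfold X0
          rw [hAB]; group
      rw [e1]
      exact this
    have claim : ∀ t, t0 ≤ t → t ≤ t0 + q → PL S' (f (z t)) (f (z (t + 1)))
        ((γ (z t))⁻¹ * (lt (W t), RA_vv W z c t) * γ (z (t + 1))) := by
      intro t h1 h2
      rcases eq_or_lt_of_le h1 with h3 | h3
      · subst h3
        have o1 := hout t0 hhs (by omega) (Or.inl le_rfl)
        have i1 := hin (t0 + 1) (by omega) (by omega)
        rw [hfo _ o1, hfi _ i1, hγo _ o1, inv_one, one_mul]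
        have e2 : γ (z (t0 + 1)) = (wd W (t0 + 1) q, wd W (t0 + 1) q) := by
          show (RA_g W z t0 q _, RA_g W z t0 q _) = _
          rw [hg1 (t0 + 1) (by omega) (by omega)]
          have : (t0 + q + 1 - (t0 + 1)).toNat = q := by omega
          rw [this]
        rw [e2, hc, RA_vv_eq]
        exact p4
      · have i1 := hin t h3 h2
        have hfi2 : f (z (t + 1)) = z (t0 + q + 1) := by
          rcases lt_or_eq_of_le h2 with h4 | h4
          · exact hfi _ (hin (t + 1) (by omega) (by omega))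
          · rw [h4]
            exact hfo _ (hout _ (by omega) (by omega) (by omega))
        have e3 : γ (z (t + 1)) = (wd W (t + 1) (t0 + q - t).toNat,
            wd W (t + 1) (t0 + q - t).toNat) := by
          rcases lt_or_eq_of_le h2 with h4 | h4
          · show (RA_g W z t0 q _, RA_g W z t0 q _) = _
            rw [hg1 (t + 1) (by omega) (by omega)]
            have : (t0 + q + 1 - (t + 1)).toNat = (t0 + q - t).toNat := by omega
            rw [this]
          · rw [hγo _ (hout _ (by omega) (by omega) (by omega))]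
            have : (t0 + q - t).toNat = 0 := by omega
            rw [this]; rfl
        have e4 : γ (z t) = (lt (W t) * wd W (t + 1) (t0 + q - t).toNat,
            lt (W t) * wd W (t + 1) (t0 + q - t).toNat) := by
          show (RA_g W z t0 q _, RA_g W z t0 q _) = _
          rw [hg1 t (by omega) (by omega)]
          have : (t0 + q + 1 - t).toNat = (t0 + q - t).toNat + 1 := by omega
          rw [this, wd_succ']
        have hne : ed W z t ≠ ed W z t0 := hed0 t (by omega) (by omega) (by omega)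
        have e5 : (γ (z t))⁻¹ * (lt (W t), RA_vv W z c t) * γ (z (t + 1)) = 1 := by
          rw [e3, e4, hc, RA_vv_ne hne]
          apply Prod.ext
          · simp only [Prod.fst_mul, Prod.fst_inv, Prod.fst_one]; group
          · simp only [Prod.snd_mul, Prod.snd_inv, Prod.snd_one]; group
        rw [e5, hfi _ i1, hfi2]
        exact PL.nil _
    have H : ∀ a x b, (a, x, b) ∈ lfc E c → PL S' (f a) (f b) ((γ a)⁻¹ * x * γ b) := by
      rintro a x b ⟨d, hd, hdeq⟩
      obtain ⟨rfl, rfl, rfl⟩ : a = d.1 ∧ x = (FreeGroup.of d.2.1, c d) ∧ b = d.2.2 := by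
        simpa [Prod.ext_iff] using hdeq
      by_cases hd1 : d ∈ E1 E W z t0 q
      · obtain ⟨o1, o2⟩ := hE1 d hd1
        rw [hfo _ o1, hfo _ o2, hγo _ o1, hγo _ o2, inv_one, one_mul, mul_one]
        exact mono (PL.edge ⟨d, hd1, rfl⟩)
      · have : d ∈ (Finset.Icc t0 (t0 + q)).image (ed W z) := by
          by_contra hcon
          exact hd1 (Finset.mem_sdiff.2 ⟨hd, hcon⟩)
        obtain ⟨t, ht, rfl⟩ := Finset.mem_image.1 this
        rw [Finset.mem_Icc] at ht
        have hcl := claim t ht.1 ht.2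
        rcases hW : W t with ⟨x, b⟩
        cases b
        · have he : ed W z t = (z (t + 1), x, z t) := by simp [ed, hW]
          have hv : RA_vv W z c t = (c (ed W z t))⁻¹ := by simp [RA_vv, hW]
          rw [hv, hW, lt_false] at hcl
          have := hcl.symm
          have e6 : ((γ (z t))⁻¹ * ((FreeGroup.of x)⁻¹, (c (ed W z t))⁻¹) * γ (z (t + 1)))⁻¹ =
              (γ (z (t + 1)))⁻¹ * (FreeGroup.of x, c (ed W z t)) * γ (z t) := by
            have : ((FreeGroup.of x)⁻¹, (c (ed W z t))⁻¹) = (FreeGroup.of x, c (ed W z t))⁻¹ := rfl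
            rw [this]; group
          rw [e6] at this
          have g1 : (ed W z t).1 = z (t + 1) := by rw [he]
          have g2 : (ed W z t).2.1 = x := by rw [he]
          have g3 : (ed W z t).2.2 = z t := by rw [he]
          rw [g1, g2, g3]
          exact this
        · have he : ed W z t = (z t, x, z (t + 1)) := by simp [ed, hW]
          have hv : RA_vv W z c t = c (ed W z t) := by simp [RA_vv, hW]
          rw [hv, hW, lt_true] at hcl
          have g1 : (ed W z t).1 = z t := by rw [he]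
          have g2 : (ed W z t).2.1 = x := by rw [he]
          have g3 : (ed W z t).2.2 = z (t + 1) := by rw [he]
          rw [g1, g2, g3]
          exact hcl
    have := PL.mor f γ H h
    rw [hfo _ ha, hfo _ hb, hγo _ ha, hγo _ hb, inv_one, one_mul, mul_one] at this
    exact this
  · intro h
    refine PL.map (f := id) ?_ h
    rintro x y w (⟨d, hd, hdeq⟩ | hdeq)
    · exact PL.edge ⟨d, (Finset.mem_sdiff.1 hd).1, hdeq⟩
    · have p1 := RA_run (F := E) (W := W) (z := z) (s := s) (e := e) (t0 := t0) (u := u)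
        (t := s) (t0 - s).toNat (by
          intro t' h1 h2
          rw [eA] at h2
          exact ⟨hedE t' h1 (by omega), hed0 t' h1 (by omega) (by omega)⟩)
      rw [eA, show s + (t0 - s) = t0 by ring] at p1
      have p2 := RA_run (F := E) (W := W) (z := z) (s := s) (e := e) (t0 := t0) (u := u)
        (t := t0 + 1) (e - t0 - 1).toNat (by
          intro t' h1 h2
          rw [eB] at h2
          exact ⟨hedE t' (by omega) (by omega), hed0 t' (by omega) (by omega) (by omega)⟩)
      rw [eB, show t0 + 1 + (e - t0 - 1) = e by ring] at p2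
      have p3 := RA_step (cc W z s e t0 u) (hedE t0 hhs (by omega))
      rw [RA_vv_eq] at p3
      have p4 := ((p1.trans p3).trans p2).symm
      have e1 : ((wd W s (t0 - s).toNat, wd W s (t0 - s).toNat) * (lt (W t0), X0 W s e t0 u) *
          (wd W (t0 + 1) (e - t0 - 1).toNat, wd W (t0 + 1) (e - t0 - 1).toNat))⁻¹ =
          ((wd W s (e - s).toNat)⁻¹, u) := by
        apply Prod.ext
        · simp only [Prod.fst_mul, Prod.fst_inv]
          rw [hP]; group
        · simp only [Prod.snd_mul, Prod.snd_inv]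
          unfold X0
          group
      rw [e1] at p4
      have h5 : (x, y, w) = (z e, ((wd W s (e - s).toNat)⁻¹, u), z s) := hdeq
      obtain ⟨rfl, rfl, rfl⟩ : x = z e ∧ y = ((wd W s (e - s).toNat)⁻¹, u) ∧ w = z s := by
        simpa [Prod.ext_iff] using h5
      exact p4

end Pool.Agent.WN
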